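import Pool.Agent.H74.TS.Res

/-!
# Nonvanishing of central values for almost all twists of an arbitrary set of characters

For a large prime `q`, every set `A` of Dirichlet characters modulo `q`, without any structure, has
the property that for all but at most `q^ε min(q |A|^{-1/2}, q² |A|^{-2})` characters `ψ` modulo `q`
a positive proportion of the products `χ ψ`, `χ ∈ A`, have a nonvanishing central `L`-value.
-/

namespace Pool.Agent.Results.MP_3b6604_nt.AlmostAllTwists

open Pool.Agent.H14 Pool.Agent.H74.TS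

/-- For every `ε > 0` there are `c > 0` and `q₀` such that for every prime `q ≥ q₀` and every finite
set `A` of Dirichlet characters modulo `q` the following holds.  For all but at most
`min (q^{1+ε} / |A|^{1/2}) (q^{2+ε} / |A|^2)` of the characters `ψ` modulo `q`, at least `c |A|` of
the `χ ∈ A` satisfy `χ ψ ≠ 1` and `L(1/2, χ ψ) ≠ 0`.

Here `artinL χ` is the `L`-function of the primitive Dirichlet character inducing `χ`, which is the
Artin `L`-function of `χ` as a character of `Gal(ℚ(ζ_q)/ℚ)`. -/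
theorem result (ε : ℝ) (hε : 0 < ε) : ∃ c : ℝ, 0 < c ∧ ∃ q₀ : ℕ, ∀ (q : ℕ) [Fact q.Prime],
    q₀ ≤ q → ∀ A : Finset (DirichletCharacter ℂ q),
      (Nat.card {ψ : DirichletCharacter ℂ q //
        (Nat.card {χ : DirichletCharacter ℂ q //
          χ ∈ A ∧ χ * ψ ≠ 1 ∧ artinL (χ * ψ) (1 / 2) ≠ 0} : ℝ) < c * A.card} : ℝ) ≤
      min ((q : ℝ) ^ (1 + ε) / √(A.card : ℝ)) ((q : ℝ) ^ (2 + ε) / (A.card : ℝ) ^ 2) := by
  classical
  obtain ⟨c, hc, q₀, hmain⟩ := main_result ε hε
  refine ⟨c, hc, max q₀ 1, ?_⟩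
  intro q _ hq' A
  have hq : q₀ ≤ q := (le_max_left _ _).trans hq'
  have hqp : q.Prime := Fact.out
  have hq0 : (0 : ℝ) < q := by exact_mod_cast hqp.pos
  have hq1' : (1 : ℝ) ≤ q := by exact_mod_cast hqp.one_lt.le
  have hval : ∀ ψ : DirichletCharacter ℂ q, Nat.card {χ : DirichletCharacter ℂ q //
        χ ∈ A ∧ χ * ψ ≠ 1 ∧ artinL (χ * ψ) (1 / 2) ≠ 0} =
      (A.filter (fun χ => χ * ψ ≠ 1 ∧ artinL (χ * ψ) (1 / 2) ≠ 0)).card := by
    intro ψ
    rw [Nat.card_eq_fintype_card, Fintype.card_subtype]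
    congr 1
    ext χ
    simp only [Finset.mem_filter, Finset.mem_univ, true_and]
  set bad : Finset (DirichletCharacter ℂ q) := Finset.univ.filter (fun ψ =>
    ((A.filter (fun χ => χ * ψ ≠ 1 ∧ artinL (χ * ψ) (1 / 2) ≠ 0)).card : ℝ) < c * A.card) with hbad
  have hcardeq : (Nat.card {ψ : DirichletCharacter ℂ q //
      (Nat.card {χ : DirichletCharacter ℂ q //
        χ ∈ A ∧ χ * ψ ≠ 1 ∧ artinL (χ * ψ) (1 / 2) ≠ 0} : ℝ) < c * A.card} : ℝ) = bad.card := by
    rw [Nat.card_eq_fintype_card, Fintype.card_subtype]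
    congr 2
    ext ψ
    simp only [hbad, Finset.mem_filter, Finset.mem_univ, true_and]
    rw [hval]
  rw [hcardeq]
  rcases A.eq_empty_or_nonempty with hA | hA
  · have hb : bad = ∅ := by
      rw [hbad, Finset.filter_eq_empty_iff]
      intro ψ _
      rw [hA]
      simp
    rw [hb, hA]
    simp
  have hA0 : (0 : ℝ) < A.card := by exact_mod_cast hA.card_pos
  -- a nonempty set of bad characters contradicts a lower bound for the number of good pairs
  have hkey : bad.Nonempty → c * ((A.card : ℝ) * bad.card) ≤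
      ∑ ψ ∈ bad, ((A.filter (fun χ => χ * ψ ≠ 1 ∧ artinL (χ * ψ) (1 / 2) ≠ 0)).card : ℝ) →
      False := by
    intro hbne h1
    have h3 : ∑ ψ ∈ bad, ((A.filter (fun χ => χ * ψ ≠ 1 ∧ artinL (χ * ψ) (1 / 2) ≠ 0)).card : ℝ) <
        ∑ _ψ ∈ bad, c * (A.card : ℝ) := by
      refine Finset.sum_lt_sum_of_nonempty hbne fun ψ hψ => ?_
      exact (Finset.mem_filter.mp hψ).2
    rw [Finset.sum_const, nsmul_eq_mul] at h3
    nlinarith
  have hne : ∀ x : ℝ, 0 < x → x < bad.card → bad.Nonempty := by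
    intro x hx hx2
    rw [← Finset.card_pos]
    have : (0 : ℝ) < bad.card := hx.trans hx2
    exact_mod_cast this
  refine le_min ?_ ?_
  · by_contra hcon
    push Not at hcon
    have hs : 0 < √(A.card : ℝ) := Real.sqrt_pos.mpr hA0
    have hpos : 0 < (q : ℝ) ^ (1 + ε) / √(A.card : ℝ) := by positivity
    have hcon2 := (div_lt_iff₀ hs).mp hcon
    have hAB : (q : ℝ) ^ (2 + ε) ≤ (A.card : ℝ) * (bad.card : ℝ) ^ 2 := by
      calc (q : ℝ) ^ (2 + ε) ≤ (q : ℝ) ^ ((1 + ε) * (2 : ℕ)) := by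
            apply Real.rpow_le_rpow_of_exponent_le hq1'
            push_cast
            linarith
        _ = ((q : ℝ) ^ (1 + ε)) ^ 2 := by rw [Real.rpow_mul_natCast hq0.le]
        _ ≤ ((bad.card : ℝ) * √(A.card : ℝ)) ^ 2 := by gcongr
        _ = (A.card : ℝ) * (bad.card : ℝ) ^ 2 := by
            rw [mul_pow, Real.sq_sqrt (Nat.cast_nonneg _)]
            ring
    have h1 := hmain q hq A bad hAB
    refine hkey (hne _ hpos hcon) (h1.trans (le_of_eq ?_))
    have h3 : Nat.card {x : DirichletCharacter ℂ q × DirichletCharacter ℂ q //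
          x.1 ∈ A ∧ x.2 ∈ bad ∧ x.1 * x.2 ≠ 1 ∧ artinL (x.1 * x.2) (1 / 2) ≠ 0} =
        ((A ×ˢ bad).filter (fun x => x.1 * x.2 ≠ 1 ∧ artinL (x.1 * x.2) (1 / 2) ≠ 0)).card := by
      rw [Nat.card_eq_fintype_card, Fintype.card_subtype]
      congr 1
      ext x
      simp only [Finset.mem_filter, Finset.mem_product, Finset.mem_univ, true_and]
      tauto
    rw [h3, Finset.card_filter, Finset.sum_product_right]
    push_cast
    refine Finset.sum_congr rfl fun ψ _ => ?_
    rw [Finset.card_filter]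
    push_cast
    rfl
  · by_contra hcon
    push Not at hcon
    have hs : 0 < (A.card : ℝ) ^ 2 := by positivity
    have hpos : 0 < (q : ℝ) ^ (2 + ε) / (A.card : ℝ) ^ 2 := by positivity
    have hcon2 := (div_lt_iff₀ hs).mp hcon
    have h1 := hmain q hq bad A hcon2.le
    have h2 : c * ((A.card : ℝ) * bad.card) = c * ((bad.card : ℝ) * A.card) := by ring
    refine hkey (hne _ hpos hcon) ((le_of_eq h2).trans (h1.trans (le_of_eq ?_)))
    have h3 : Nat.card {x : DirichletCharacter ℂ q × DirichletCharacter ℂ q //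
          x.1 ∈ bad ∧ x.2 ∈ A ∧ x.1 * x.2 ≠ 1 ∧ artinL (x.1 * x.2) (1 / 2) ≠ 0} =
        ((bad ×ˢ A).filter (fun x => x.2 * x.1 ≠ 1 ∧ artinL (x.2 * x.1) (1 / 2) ≠ 0)).card := by
      rw [Nat.card_eq_fintype_card, Fintype.card_subtype]
      congr 1
      ext x
      simp only [Finset.mem_filter, Finset.mem_product, Finset.mem_univ, true_and]
      rw [mul_comm x.2 x.1]
      tauto
    rw [h3, Finset.card_filter, Finset.sum_product]
    push_cast
    refine Finset.sum_congr rfl fun ψ _ => ?_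
    rw [Finset.card_filter]
    push_cast
    rfl

end Pool.Agent.Results.MP_3b6604_nt.AlmostAllTwists
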