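import Pool.Agent.H14.BK.Final

/-!
# Central values of ray class characters of imaginary quadratic fields in almost all twists

For an imaginary quadratic field `K` and a prime ideal `𝔭` of large prime norm `q`, every set `A` of
ray class characters modulo `𝔭`, without any structure, has the property that for all but at most
`q^ε min(q |A|^{-1/2}, q² |A|^{-2})` ray class characters `ψ` modulo `𝔭` a positive proportion of the
products `χ ψ`, `χ ∈ A`, are ramified at `𝔭` and have a nonvanishing central `L`-value.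
-/

namespace Pool.Agent.Results.MP_3b6604_nt.RayClassTwists

open NumberField Module Pool.Agent.H14.BK

/-- Let `K` be an imaginary quadratic field and `ε > 0`.  There are `c > 0` and `q₀` such that for
every prime ideal `𝔭` of prime norm `q ≥ q₀` and every finite set `A` of ray class characters
modulo `𝔭` the following holds.  For all but at most `min (q^{1+ε} / |A|^{1/2}) (q^{2+ε} / |A|^2)` of
the ray class characters `ψ` modulo `𝔭`, at least `c |A|` of the `χ ∈ A` have the property that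
`χ ψ` is ramified at `𝔭` and has an entire `L`-function `L` with `L(1/2) ≠ 0`. -/
theorem result (K : Type*) [Field K] [NumberField K] [IsTotallyComplex K]
    (hK : finrank ℚ K = 2) (ε : ℝ) (hε : 0 < ε) :
    ∃ c : ℝ, 0 < c ∧ ∃ q₀ : ℕ, ∀ 𝔭 : Ideal (𝓞 K), (Ideal.absNorm 𝔭).Prime →
      q₀ ≤ Ideal.absNorm 𝔭 → ∀ A : Finset (Ideal (𝓞 K) →*₀ ℂ), (∀ χ ∈ A, IsRay 𝔭 χ) →
      (Nat.card {ψ : Ideal (𝓞 K) →*₀ ℂ // IsRay 𝔭 ψ ∧
        (Nat.card {χ : Ideal (𝓞 K) →*₀ ℂ // χ ∈ A ∧ Ramified 𝔭 (χ * ψ) ∧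
          ∃ L : ℂ → ℂ, IsRayL (χ * ψ) L ∧ L (1 / 2) ≠ 0} : ℝ) < c * A.card} : ℝ) ≤
      min (((Ideal.absNorm 𝔭 : ℕ) : ℝ) ^ (1 + ε) / √(A.card : ℝ))
        (((Ideal.absNorm 𝔭 : ℕ) : ℝ) ^ (2 + ε) / (A.card : ℝ) ^ 2) :=
  twists_K K hK ε hε

end Pool.Agent.Results.MP_3b6604_nt.RayClassTwists
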