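import Pool.Agent.H74.ZS.Res

/-!
# Sums of two arbitrary sets of real numbers and the zeros of the Riemann zeta function

For all finite sets `A`, `B` of real numbers with at most `K` elements in every interval of length
one, with `A + B ⊆ [T, 2T]` and `|A| |B| max(|A|, |B|) ≥ K³ T^(2+ε)`, a positive proportion of the
pairs `(a, b)` satisfies `ζ(1/2 + i (a + b)) ≠ 0`.
-/

namespace Pool.Agent.Results.MP_3b6604_nt.SumsetNonvanishing

open Complex

/-- For every `ε > 0` there are `c > 0` and `T₀` such that for all `T ≥ T₀`, all natural numbers `K`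
and all finite sets `A`, `B` of real numbers the following holds.  Suppose that every interval
`[x, x + 1)` contains at most `K` elements of `A` and at most `K` elements of `B`, that
`T ≤ a + b ≤ 2 T` for all `a ∈ A`, `b ∈ B`, and that `K³ T^(2+ε) ≤ |A| |B| max(|A|, |B|)`.  Then at
least `c |A| |B|` of the pairs `(a, b) ∈ A × B` satisfy `ζ(1/2 + i (a + b)) ≠ 0`. -/
theorem result (ε : ℝ) (hε : 0 < ε) : ∃ c T₀ : ℝ, 0 < c ∧ ∀ T : ℝ, T₀ ≤ T →
    ∀ (K : ℕ) (A B : Finset ℝ),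
    (∀ x : ℝ, {a : ℝ | a ∈ A ∧ x ≤ a ∧ a < x + 1}.ncard ≤ K) →
    (∀ x : ℝ, {b : ℝ | b ∈ B ∧ x ≤ b ∧ b < x + 1}.ncard ≤ K) →
    (∀ a ∈ A, ∀ b ∈ B, T ≤ a + b ∧ a + b ≤ 2 * T) →
    (K : ℝ) ^ 3 * T ^ (2 + ε) ≤ (A.card : ℝ) * B.card * max (A.card : ℝ) B.card →
    c * ((A.card : ℝ) * B.card) ≤ ({x : ℝ × ℝ | x.1 ∈ A ∧ x.2 ∈ B ∧
      riemannZeta (1 / 2 + ((x.1 + x.2 : ℝ) : ℂ) * I) ≠ 0}.ncard : ℝ) :=
  Pool.Agent.H74.ZS.zs_main_set ε hε

end Pool.Agent.Results.MP_3b6604_nt.SumsetNonvanishing
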