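import Pool.Agent.H14.PT.Orbit
import Pool.Agent.H14.Defs

/-!
# Nonvanishing of central values in Galois orbits and cosets of characters of prime conductor

A positive proportion of nonvanishing for the faithful characters of the Galois group of an abelian
field of prime conductor `q` and degree at least `q^{2/3+ε}`, also with prescribed restriction to a
subgroup of index at least `q^{2/3+ε}`.
-/

namespace Pool.Agent.Results.MP_3b6604_nt.ThinGaloisOrbits

open Pool.Agent.H14 IsCyclotomicExtension.Rat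

/-- For every `ε > 0` there are `c > 0` and `q₀` such that the following holds for every prime
`q ≥ q₀`.  Let `F ⊆ E` be subfields of `K = ℚ(ζ_q)` with `[F : ℚ] ≥ q^{2/3+ε}`, let `N` be a divisor
of `[E : ℚ]` which is coprime to `[E : ℚ] / N`, and let `ψ` be a character of `Gal(E/ℚ)`.  Among the
characters `χ` of `Gal(E/ℚ)` which agree with `ψ` on `Gal(E/F)` and whose order is divisible by `N`,
the proportion of those with `χ ≠ 1` and `L(1/2, χ) ≠ 0` is at least `c`.

For `N = 1` these are all `[F : ℚ]` characters `χ` which agree with `ψ` on `Gal(E/F)`.  For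
`N = [E : ℚ]` these are the faithful characters of `Gal(E/ℚ)` which agree with `ψ` on `Gal(E/F)`; if
moreover `E = F`, they are all faithful characters of `Gal(F/ℚ)`, which form one Galois orbit. -/
theorem result (ε : ℝ) (hε : 0 < ε) : ∃ c : ℝ, 0 < c ∧ ∃ q₀ : ℕ, ∀ (q : ℕ) [Fact q.Prime],
    q₀ ≤ q → ∀ (K : Type*) [Field K] [NumberField K] [IsCyclotomicExtension {q} ℚ K]
    [IsAbelianGalois ℚ K] (F E : IntermediateField ℚ K), F ≤ E →
    (q : ℝ) ^ (2 / 3 + ε) ≤ Module.finrank ℚ F →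
    ∀ N : ℕ, N ∣ Module.finrank ℚ E → N.Coprime (Module.finrank ℚ E / N) →
    ∀ ψ ∈ intermediateFieldEquivSubgroupChar q K ℂ E,
    c * (Nat.card {χ : DirichletCharacter ℂ q //
        ψ⁻¹ * χ ∈ intermediateFieldEquivSubgroupChar q K ℂ F ∧ N ∣ orderOf χ} : ℝ) ≤
      (Nat.card {χ : DirichletCharacter ℂ q //
        ψ⁻¹ * χ ∈ intermediateFieldEquivSubgroupChar q K ℂ F ∧ N ∣ orderOf χ ∧
          χ ≠ 1 ∧ artinL χ (1 / 2) ≠ 0} : ℝ) := by
  classical
  obtain ⟨c, Q0, hc, hmain⟩ := PT.count_orbit (min ε (1 / 3)) (lt_min hε (by norm_num))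
    (min_le_right _ _)
  refine ⟨c, hc, ⌈Real.exp Q0⌉₊, ?_⟩
  intro q _ hq K _ _ _ _ F E hFE hF N hN hN' ψ hψ
  have hqp : q.Prime := Fact.out
  have hq0 : (0 : ℝ) < q := by exact_mod_cast hqp.pos
  have hq1 : (1 : ℝ) ≤ q := by exact_mod_cast hqp.one_lt.le
  have hQ : Q0 ≤ Real.log q := by
    rw [Real.le_log_iff_exp_le hq0]
    exact (Nat.le_ceil _).trans (by exact_mod_cast hq)
  rw [← card_intermediateFieldEquivSubgroupChar (R := ℂ) q K F] at hF
  rw [← card_intermediateFieldEquivSubgroupChar (R := ℂ) q K E] at hN hN'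
  set X := intermediateFieldEquivSubgroupChar q K ℂ F with hX
  set C := intermediateFieldEquivSubgroupChar q K ℂ E with hC
  have hXC : X ≤ C := (intermediateFieldEquivSubgroupChar q K ℂ).monotone hFE
  have hF' : (q : ℝ) ^ (2 / 3 + min ε (1 / 3)) ≤ Nat.card X :=
    (Real.rpow_le_rpow_of_exponent_le hq1 (by linarith [min_le_left ε (1 / 3)])).trans hF
  have h := hmain q hQ X C hXC N hN hN' ψ hψ hF'
    (Finset.univ.filter (fun χ => ψ⁻¹ * χ ∈ X ∧ N ∣ orderOf χ))
    (Finset.univ.filter (fun χ => ψ⁻¹ * χ ∈ X ∧ N ∣ orderOf χ ∧ χ ≠ 1 ∧ artinL χ (1 / 2) ≠ 0))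
    (fun χ => by simp) (fun χ hχ hne hL => by
      obtain ⟨h1, h2⟩ := (Finset.mem_filter.mp hχ).2
      exact Finset.mem_filter.mpr ⟨Finset.mem_univ _, h1, h2, hne,
        artinL_ne_zero_of_LFunction_ne_zero (by norm_num) hL⟩)
  rw [Nat.card_eq_fintype_card, Nat.card_eq_fintype_card, Fintype.card_subtype,
    Fintype.card_subtype]
  exact h

end Pool.Agent.Results.MP_3b6604_nt.ThinGaloisOrbits
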